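import Mathlib
import Pool.Agent.W743.GV.Stm

/-! Rodrigues rotation (part ROT of project GV). -/

open Pool.Agent.W743.GV

namespace Pool.Agent.W368.GV

/-- the Rodrigues matrix with axis n, cosine c and sine s -/
def rod (a b e c s : ℝ) : Matrix (Fin 3) (Fin 3) ℝ :=
  !![c + (1 - c) * a ^ 2, (1 - c) * a * b - s * e, (1 - c) * a * e + s * b;
     (1 - c) * b * a + s * e, c + (1 - c) * b ^ 2, (1 - c) * b * e - s * a;
     (1 - c) * e * a - s * b, (1 - c) * e * b + s * a, c + (1 - c) * e ^ 2]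

theorem rod_mem (a b e c s : ℝ) (h : a ^ 2 + b ^ 2 + e ^ 2 = 1) (hc : s ^ 2 + c ^ 2 = 1) :
    rod a b e c s ∈ Matrix.specialOrthogonalGroup (Fin 3) ℝ := by
  rw [Matrix.mem_specialOrthogonalGroup_iff, Matrix.mem_orthogonalGroup_iff]
  constructor
  · ext i j
    fin_cases i <;> fin_cases j <;>
      simp [rod, Matrix.mul_apply, Fin.sum_univ_three]
    · linear_combination (a ^ 2 * (1 - c) ^ 2) * h + (1 - a ^ 2) * hc + (s ^ 2) * h
    · linear_combination (a * b * (1 - c) ^ 2) * h - (a * b) * hc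
    · linear_combination (a * e * (1 - c) ^ 2) * h - (a * e) * hc
    · linear_combination (b * a * (1 - c) ^ 2) * h - (b * a) * hc
    · linear_combination (b ^ 2 * (1 - c) ^ 2) * h + (1 - b ^ 2) * hc + (s ^ 2) * h
    · linear_combination (b * e * (1 - c) ^ 2) * h - (b * e) * hc
    · linear_combination (e * a * (1 - c) ^ 2) * h - (e * a) * hc
    · linear_combination (e * b * (1 - c) ^ 2) * h - (e * b) * hc
    · linear_combination (e ^ 2 * (1 - c) ^ 2) * h + (1 - e ^ 2) * hc + (s ^ 2) * h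
  · rw [Matrix.det_fin_three]
    simp only [rod, Matrix.of_apply, Matrix.cons_val', Matrix.cons_val_zero, Matrix.cons_val_one,
      Matrix.cons_val]
    linear_combination ((1 - c) * (c ^ 2 + s ^ 2 * (a ^ 2 + b ^ 2 + e ^ 2)) + s ^ 2) * h + hc

theorem rod_app (n v : E3) (c s : ℝ) (i : Fin 3) :
    Matrix.toEuclideanLin (rod (n 0) (n 1) (n 2) c s) v i
      = c * v i + s * (crs n v) i + ((1 - c) * (n 0 * v 0 + n 1 * v 1 + n 2 * v 2)) * n i := by
  have h0 : Matrix.toEuclideanLin (rod (n 0) (n 1) (n 2) c s) v i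
      = ∑ j, rod (n 0) (n 1) (n 2) c s i j * v j := by
    simp [Matrix.toEuclideanLin, Matrix.mulVec, dotProduct]
  rw [h0, Fin.sum_univ_three]
  fin_cases i
  · simp [rod, crs]
    ring
  · simp [rod, crs]
    ring
  · simp [rod, crs]
    ring

theorem t_ROT : S_ROT := by
  intro n hn t
  have h : n 0 ^ 2 + n 1 ^ 2 + n 2 ^ 2 = 1 := by
    have h1 := EuclideanSpace.norm_sq_eq n
    rw [hn, Fin.sum_univ_three] at h1
    simp only [Real.norm_eq_abs, sq_abs] at h1
    linarith
  refine ⟨rod (n 0) (n 1) (n 2) (Real.cos t) (Real.sin t),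
    rod_mem _ _ _ _ _ h (Real.sin_sq_add_cos_sq t), ?_, ?_⟩
  · ext i
    rw [rod_app]
    fin_cases i
    · simp [crs]
      linear_combination ((1 - Real.cos t) * n 0) * h
    · simp [crs]
      linear_combination ((1 - Real.cos t) * n 1) * h
    · simp [crs]
      linear_combination ((1 - Real.cos t) * n 2) * h
  · intro v
    have hi : inner ℝ n v = n 0 * v 0 + n 1 * v 1 + n 2 * v 2 := by
      rw [PiLp.inner_apply, Fin.sum_univ_three]
      simp [mul_comm]
    ext i
    rw [rod_app, hi]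
    simp

end Pool.Agent.W368.GV
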